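import Mathlib

set_option autoImplicit false

namespace Pool.Agent.TH950.Ultra

open Filter

universe u

/-- the ultrapower of a field along an ultrafilter on the natural numbers -/
abbrev Om (k : Type u) [Field k] (φ : Ultrafilter ℕ) : Type u := Germ (φ : Filter ℕ) k

section

variable {k : Type u} [Field k] (φ : Ultrafilter ℕ)

/-- the diagonal embedding -/
noncomputable def cst : k →+* Om k φ :=
  (Germ.coeRingHom (φ : Filter ℕ)).comp (algebraMap k (ℕ → k))

noncomputable instance instAlg : Algebra k (Om k φ) := (cst φ).toAlgebra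

/-- the germ of a sequence -/
abbrev gm (f : ℕ → k) : Om k φ := Germ.coeRingHom (φ : Filter ℕ) f

lemma gm_eq_zero (f : ℕ → k) : gm φ f = 0 ↔ ∀ᶠ n in (φ : Filter ℕ), f n = 0 := by
  show ((f : Germ (φ : Filter ℕ) k) = ((fun _ => 0 : ℕ → k) : Germ (φ : Filter ℕ) k)) ↔ _
  rw [Germ.coe_eq]
  rfl

lemma gm_ne_zero (f : ℕ → k) : gm φ f ≠ 0 ↔ ∀ᶠ n in (φ : Filter ℕ), f n ≠ 0 := by
  rw [Ne, gm_eq_zero, Ultrafilter.eventually_not]

lemma gm_surj (x : Om k φ) : ∃ f : ℕ → k, gm φ f = x := by
  induction x using Germ.inductionOn with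
  | _ f => exact ⟨f, rfl⟩

lemma aeval_gm {σ : Type*} (p : MvPolynomial σ k) (w : ℕ → σ → k) :
    MvPolynomial.aeval (fun i => gm φ (fun n => w n i)) p =
      gm φ (fun n => MvPolynomial.eval (w n) p) := by
  have h : (MvPolynomial.aeval (fun i => gm φ (fun n => w n i)) :
      MvPolynomial σ k →ₐ[k] Om k φ).toRingHom =
      (Germ.coeRingHom (φ : Filter ℕ)).comp
        (RingHom.pi (fun n => (MvPolynomial.eval (w n) : MvPolynomial σ k →+* k))) := by
    apply MvPolynomial.ringHom_ext
    · intro r
      simp only [AlgHom.toRingHom_eq_coe, RingHom.coe_coe, RingHom.coe_comp, Function.comp_apply]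
      rw [show (MvPolynomial.C r : MvPolynomial σ k) = algebraMap k _ r from rfl,
        AlgHom.commutes]
      show (Germ.coeRingHom (φ : Filter ℕ)) (algebraMap k (ℕ → k) r) = _
      congr 1
      funext n
      rw [RingHom.pi_apply, MvPolynomial.algebraMap_eq, MvPolynomial.eval_C]
      rfl
    · intro i
      simp only [AlgHom.toRingHom_eq_coe, RingHom.coe_coe, RingHom.coe_comp, Function.comp_apply,
        MvPolynomial.aeval_X]
      congr 1
      funext n
      rw [RingHom.pi_apply, MvPolynomial.eval_X]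
  exact congrFun (congrArg (fun f : MvPolynomial σ k →+* Om k φ => (f : _ → _)) h) p

instance instAC [IsAlgClosed k] : IsAlgClosed (Om k φ) := by
  refine IsAlgClosed.of_exists_root _ fun p hp hirr => ?_
  have hd : 0 < p.natDegree := hirr.natDegree_pos
  choose f hf using fun i : ℕ => gm_surj φ (p.coeff i)
  have hroot : ∀ n : ℕ, ∃ r : k, r ^ p.natDegree +
      ∑ i ∈ Finset.range p.natDegree, f i n * r ^ i = 0 := by
    intro n
    let q : Polynomial k := Polynomial.X ^ p.natDegree +
      ∑ i ∈ Finset.range p.natDegree, Polynomial.C (f i n) * Polynomial.X ^ i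
    have hlt : (∑ i ∈ Finset.range p.natDegree, Polynomial.C (f i n) * Polynomial.X ^ i).degree <
        (p.natDegree : WithBot ℕ) := by
      refine lt_of_le_of_lt (Polynomial.degree_sum_le _ _) ?_
      rw [Finset.sup_lt_iff (by exact_mod_cast WithBot.bot_lt_coe _)]
      intro i hi
      refine lt_of_le_of_lt (Polynomial.degree_C_mul_X_pow_le _ _) ?_
      exact_mod_cast Finset.mem_range.mp hi
    have hq : q.degree = p.natDegree := by
      show (Polynomial.X ^ p.natDegree + _).degree = _
      rw [Polynomial.degree_add_eq_left_of_degree_lt]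
      · exact Polynomial.degree_X_pow _
      · rw [Polynomial.degree_X_pow]; exact hlt
    have hq0 : q.degree ≠ 0 := by
      rw [hq]
      exact_mod_cast hd.ne'
    obtain ⟨r, hr⟩ := IsAlgClosed.exists_root q hq0
    refine ⟨r, ?_⟩
    have := hr
    simp only [q, Polynomial.IsRoot.def, Polynomial.eval_add, Polynomial.eval_pow,
      Polynomial.eval_X, Polynomial.eval_finsetSum, Polynomial.eval_mul, Polynomial.eval_C] at this
    exact this
  choose r hr using hroot
  refine ⟨gm φ r, ?_⟩
  conv_lhs => rw [hp.as_sum]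
  simp only [Polynomial.eval_add, Polynomial.eval_pow, Polynomial.eval_X,
    Polynomial.eval_finsetSum, Polynomial.eval_mul, Polynomial.eval_C]
  simp_rw [← hf]
  have h2 : gm φ r ^ p.natDegree + ∑ i ∈ Finset.range p.natDegree, gm φ (f i) * gm φ r ^ i =
      gm φ (r ^ p.natDegree + ∑ i ∈ Finset.range p.natDegree, f i * r ^ i) := by
    rw [gm, gm, map_add, map_sum, map_pow]
    simp only [map_mul, map_pow]
  rw [h2, gm_eq_zero]
  refine Eventually.of_forall fun n => ?_
  simpa using hr n

end

/-- descent of solutions: a proper ideal over `F` has an `F`-algebraic zero in any algebraically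
closed extension -/
theorem exists_alg_zero {F : Type*} {Ω : Type*} [Field F] [Field Ω] [Algebra F Ω] [IsAlgClosed Ω]
    {σ : Type*} [Finite σ] (I : Ideal (MvPolynomial σ F)) (hI : I ≠ ⊤) :
    ∃ x : σ → Ω, (∀ i, IsAlgebraic F (x i)) ∧ ∀ p ∈ I, MvPolynomial.aeval x p = 0 := by
  obtain ⟨M, hM, hIM⟩ := Ideal.exists_le_maximal I hI
  let _ : Field (MvPolynomial σ F ⧸ M) := Ideal.Quotient.field M
  have hfin : Module.Finite F (MvPolynomial σ F ⧸ M) :=
    finite_of_finite_type_of_isJacobsonRing F (MvPolynomial σ F ⧸ M)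
  have halg : Algebra.IsAlgebraic F (MvPolynomial σ F ⧸ M) := inferInstance
  let ψ : (MvPolynomial σ F ⧸ M) →ₐ[F] Ω := IsAlgClosed.lift
  refine ⟨fun i => ψ (Ideal.Quotient.mk M (MvPolynomial.X i)), fun i => ?_, fun p hp => ?_⟩
  · exact (halg.isAlgebraic _).algHom ψ
  · have h : (MvPolynomial.aeval (fun i => ψ (Ideal.Quotient.mk M (MvPolynomial.X i))) :
        MvPolynomial σ F →ₐ[F] Ω) = ψ.comp (Ideal.Quotient.mkₐ F M) := by
      apply MvPolynomial.algHom_ext
      intro i
      simp
    rw [h]
    simp only [AlgHom.comp_apply, Ideal.Quotient.mkₐ_eq_mk]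
    rw [Ideal.Quotient.eq_zero_iff_mem.mpr (hIM hp), map_zero]

end Pool.Agent.TH950.Ultra
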