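import Mathlib
import Pool.Agent.TH950.Ultra

set_option autoImplicit false

namespace Pool.Agent.TH950.Descent

open Filter Pool.Agent.TH950.Ultra
open scoped IntermediateField.algebraAdjoinAdjoin

universe u

/-- If sequences of vectors `u n`, `w n` satisfy, along an ultrafilter, polynomial equations, then
`u n` may be replaced by a sequence satisfying the same equations whose entries are roots of
polynomials with coefficients polynomial in `w n`. -/
theorem descent {k : Type u} [Field k] [IsAlgClosed k] (φ : Ultrafilter ℕ)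
    {σ τ : Type} [Finite σ] [Finite τ] (w : ℕ → τ → k) (v : ℕ → σ → k)
    (P : Set (MvPolynomial (σ ⊕ τ) k))
    (hP : ∀ p ∈ P, ∀ᶠ n in (φ : Filter ℕ), MvPolynomial.eval (Sum.elim (v n) (w n)) p = 0) :
    ∃ v' : ℕ → σ → k,
      (∀ p ∈ P, ∀ᶠ n in (φ : Filter ℕ), MvPolynomial.eval (Sum.elim (v' n) (w n)) p = 0) ∧
      ∀ i : σ, ∃ (N : ℕ) (c : Fin (N + 1) → MvPolynomial τ k),
        (∀ᶠ n in (φ : Filter ℕ), ∑ j, MvPolynomial.eval (w n) (c j) * (v' n i) ^ (j : ℕ) = 0) ∧
        ∃ j, ∀ᶠ n in (φ : Filter ℕ), MvPolynomial.eval (w n) (c j) ≠ 0 := by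
  classical
  let wh : τ → Om k φ := fun j => gm φ (fun n => w n j)
  let F : IntermediateField k (Om k φ) := IntermediateField.adjoin k (Set.range wh)
  have hmem : ∀ j, wh j ∈ F := fun j => IntermediateField.subset_adjoin k _ ⟨j, rfl⟩
  let Ψ : MvPolynomial (σ ⊕ τ) k →ₐ[k] MvPolynomial σ F :=
    MvPolynomial.aeval (Sum.elim MvPolynomial.X (fun j => MvPolynomial.C (⟨wh j, hmem j⟩ : F)))
  have hΨ : ∀ (x : σ → Om k φ) (p : MvPolynomial (σ ⊕ τ) k),
      MvPolynomial.aeval x (Ψ p) = MvPolynomial.aeval (Sum.elim x wh) p := by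
    intro x p
    have h : ((MvPolynomial.aeval x : MvPolynomial σ F →ₐ[F] Om k φ).restrictScalars k).comp Ψ =
        MvPolynomial.aeval (Sum.elim x wh) := by
      apply MvPolynomial.algHom_ext
      rintro (i | j)
      · simp [Ψ]
      · simp [Ψ]
    exact congrFun (congrArg (fun f : MvPolynomial (σ ⊕ τ) k →ₐ[k] Om k φ => (f : _ → _)) h) p
  have hgm : ∀ (x : ℕ → σ → k) (p : MvPolynomial (σ ⊕ τ) k),
      MvPolynomial.aeval (Sum.elim (fun i => gm φ (fun n => x n i)) wh) p =
        gm φ (fun n => MvPolynomial.eval (Sum.elim (x n) (w n)) p) := by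
    intro x p
    rw [← aeval_gm φ p (fun n => Sum.elim (x n) (w n))]
    congr 2
    funext i
    rcases i with i | j <;> rfl
  let I : Ideal (MvPolynomial σ F) := Ideal.span (Ψ '' P)
  have hI : I ≠ ⊤ := by
    intro htop
    have h1 : (1 : MvPolynomial σ F) ∈ I := htop ▸ Submodule.mem_top
    have hle : I ≤ RingHom.ker (MvPolynomial.aeval (fun i => gm φ (fun n => v n i)) :
        MvPolynomial σ F →ₐ[F] Om k φ) := by
      rw [Ideal.span_le]
      rintro _ ⟨p, hp, rfl⟩
      show MvPolynomial.aeval _ (Ψ p) = 0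
      rw [hΨ, hgm, gm_eq_zero]
      exact hP p hp
    have h2 := hle h1
    rw [RingHom.mem_ker, map_one] at h2
    exact one_ne_zero h2
  obtain ⟨x, hxalg, hx⟩ := exists_alg_zero (Ω := Om k φ) I hI
  choose y hy using fun i => gm_surj φ (x i)
  refine ⟨fun n i => y i n, fun p hp => ?_, fun i => ?_⟩
  · rw [← gm_eq_zero, ← hgm]
    have h1 := hx (Ψ p) (Ideal.subset_span ⟨p, hp, rfl⟩)
    rw [hΨ] at h1
    rw [← h1]
    congr 2
    funext i
    rcases i with i | j
    · exact hy i
    · rfl
  · have h1 : IsAlgebraic (Algebra.adjoin k (Set.range wh)) (x i) :=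
      (IsFractionRing.isAlgebraic_iff (Algebra.adjoin k (Set.range wh)) F (Om k φ)).mpr (hxalg i)
    obtain ⟨Q, hQ0, hQ⟩ := h1
    have hc : ∀ j : ℕ, ∃ c : MvPolynomial τ k, MvPolynomial.aeval wh c =
        ((Q.coeff j : Algebra.adjoin k (Set.range wh)) : Om k φ) := by
      intro j
      have h3 : ∀ a ∈ Algebra.adjoin k (Set.range wh),
          ∃ c : MvPolynomial τ k, MvPolynomial.aeval wh c = a := by
        intro a ha
        rw [Algebra.adjoin_range_eq_range_aeval] at ha
        exact ha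
      exact h3 _ (Q.coeff j).2
    choose c hc using hc
    refine ⟨Q.natDegree, fun j => c j, ?_, ⟨Fin.last _, ?_⟩⟩
    · rw [← gm_eq_zero]
      have h2 : gm φ (fun n => ∑ j : Fin (Q.natDegree + 1),
          MvPolynomial.eval (w n) (c j) * (y i n) ^ (j : ℕ)) =
          ∑ j : Fin (Q.natDegree + 1), MvPolynomial.aeval wh (c j) * (x i) ^ (j : ℕ) := by
        have e1 : ∀ j, MvPolynomial.aeval wh (c j) =
            gm φ (fun n => MvPolynomial.eval (w n) (c j)) := fun j => aeval_gm φ (c j) w
        simp_rw [e1, ← hy i]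
        simp only [gm]
        simp only [← map_pow, ← map_mul, ← map_sum]
        congr 1
        funext n
        simp
      rw [h2]
      simp_rw [hc]
      rw [← hQ, Polynomial.aeval_eq_sum_range, Finset.sum_range]
      rfl
    · rw [← gm_ne_zero, ← aeval_gm]
      show MvPolynomial.aeval wh _ ≠ 0
      rw [hc, Fin.val_last]
      intro h0
      apply hQ0
      rw [← Polynomial.leadingCoeff_eq_zero]
      exact Subtype.ext h0

end Pool.Agent.TH950.Descent
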