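import Mathlib
import Pool.Agent.Helper259.HtDef

set_option autoImplicit false

namespace Pool.Agent.TH950.Proj

open Pool.Agent.Helper259.AbsHt

/-- The `Qbar`-points of projective `n`-space. -/
abbrev PSpace (n : ℕ) : Type := Projectivization Qbar (Fin (n + 1) → Qbar)

/-- The absolute logarithmic Weil height of a point of projective space. -/
noncomputable def ht {n : ℕ} (P : PSpace n) : ℝ := absLogHeight P.rep

/-- Zariski closed sets: the common zeros of a set of forms. -/
def IsZariskiClosed {n : ℕ} (Z : Set (PSpace n)) : Prop :=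
  ∃ T : Set (MvPolynomial (Fin (n + 1)) Qbar), (∀ F ∈ T, ∃ e : ℕ, F.IsHomogeneous e) ∧
    Z = {P : PSpace n | ∀ F ∈ T, MvPolynomial.eval P.rep F = 0}

/-- The sets of `Qbar`-points of quasi-projective varieties embedded in projective `n`-space:
the differences of two Zariski closed sets. -/
def IsQuasiProjective {n : ℕ} (X : Set (PSpace n)) : Prop :=
  ∃ Z W : Set (PSpace n), IsZariskiClosed Z ∧ IsZariskiClosed W ∧ X = Z \ W

/-- Regular maps (morphisms) between quasi-projective varieties: around every point `P` of `X`,
namely on the open set where some form `G` with `G P ≠ 0` does not vanish, the map is given by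
forms `φ 0, ..., φ m` of a common degree without common zero there. -/
def IsRegular {n m : ℕ} {X : Set (PSpace n)} {Y : Set (PSpace m)} (f : X → Y) : Prop :=
  ∀ P : X, ∃ (d e : ℕ) (G : MvPolynomial (Fin (n + 1)) Qbar)
    (φ : Fin (m + 1) → MvPolynomial (Fin (n + 1)) Qbar),
    G.IsHomogeneous d ∧ (∀ j, (φ j).IsHomogeneous e) ∧ MvPolynomial.eval P.1.rep G ≠ 0 ∧
    ∀ Q : X, MvPolynomial.eval Q.1.rep G ≠ 0 →
      ∃ h : (fun j => MvPolynomial.eval Q.1.rep (φ j)) ≠ 0,
        (f Q).1 = Projectivization.mk Qbar (fun j => MvPolynomial.eval Q.1.rep (φ j)) h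

/-- Ample heights on a quasi-projective variety `X`: up to a bounded function, a positive multiple
of the pullback of the Weil height of projective space under some embedding, i.e. under some
isomorphism `e` (bijective, regular in both directions) of `X` with a quasi-projective variety
`X'` lying in some projective space. -/
def IsAmpleHeight {n : ℕ} (X : Set (PSpace n)) (h : X → ℝ) : Prop :=
  ∃ (N : ℕ) (X' : Set (PSpace N)) (e : X ≃ X'), IsQuasiProjective X' ∧
    IsRegular (fun x : X => e x) ∧ IsRegular (fun x : X' => e.symm x) ∧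
    ∃ a C : ℝ, 0 < a ∧ ∀ x : X, |h x - a * ht (e x).1| ≤ C

end Pool.Agent.TH950.Proj
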