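import Mathlib
import Pool.Agent.Helper259.AbsHt
import Pool.Agent.TH950.Descent
import Pool.Agent.TH950.ProjDef

set_option autoImplicit false

namespace Pool.Agent.TH950.Proj

open Filter Pool.Agent.Helper259.AbsHt

/-! ### Forms and representatives -/

lemma eval_smul {n : ℕ} {F : MvPolynomial (Fin (n + 1)) Qbar} {d : ℕ} (hF : F.IsHomogeneous d)
    (c : Qbar) (x : Fin (n + 1) → Qbar) :
    MvPolynomial.eval (c • x) F = c ^ d * MvPolynomial.eval x F := by
  rw [MvPolynomial.eval_eq', MvPolynomial.eval_eq', Finset.mul_sum]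
  refine Finset.sum_congr rfl fun s hs => ?_
  have hdeg : ∑ i, s i = d := by
    have h := hF (MvPolynomial.mem_support_iff.mp hs)
    have h2 : Finsupp.degree s = d := by
      rw [← h, Finsupp.degree_eq_weight_one]; rfl
    rw [← h2, Finsupp.degree_eq_sum]
  simp only [Pi.smul_apply, smul_eq_mul, mul_pow]
  rw [Finset.prod_mul_distrib, Finset.prod_pow_eq_pow_sum, hdeg]
  ring

lemma ht_mk {n : ℕ} (x : Fin (n + 1) → Qbar) (hx : x ≠ 0) :
    ht (Projectivization.mk Qbar x hx : PSpace n) = absLogHeight x := by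
  obtain ⟨a, ha⟩ := Projectivization.exists_smul_eq_mk_rep Qbar x hx
  rw [ht, ← ha]
  exact absLogHeight_smul x a.ne_zero

lemma ht_nonneg {n : ℕ} (P : PSpace n) : 0 ≤ ht P := absLogHeight_nonneg _

lemma eval_mk {n : ℕ} {F : MvPolynomial (Fin (n + 1)) Qbar} {d : ℕ} (hF : F.IsHomogeneous d)
    (x : Fin (n + 1) → Qbar) (hx : x ≠ 0) :
    MvPolynomial.eval (Projectivization.mk Qbar x hx : PSpace n).rep F = 0 ↔
      MvPolynomial.eval x F = 0 := by
  obtain ⟨a, ha⟩ := Projectivization.exists_smul_eq_mk_rep Qbar x hx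
  rw [← ha, show (a • x : Fin (n + 1) → Qbar) = (a : Qbar) • x from rfl, eval_smul hF]
  simp [a.ne_zero]

lemma mk_eval {n m : ℕ} {φ : Fin (m + 1) → MvPolynomial (Fin (n + 1)) Qbar} {d : ℕ}
    (hF : ∀ j, (φ j).IsHomogeneous d)
    (x : Fin (n + 1) → Qbar) (hx : x ≠ 0)
    (h : (fun j => MvPolynomial.eval (Projectivization.mk Qbar x hx : PSpace n).rep (φ j)) ≠ 0) :
    ∃ h' : (fun j => MvPolynomial.eval x (φ j)) ≠ 0,
    Projectivization.mk Qbar
      (fun j => MvPolynomial.eval (Projectivization.mk Qbar x hx : PSpace n).rep (φ j)) h =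
      Projectivization.mk Qbar (fun j => MvPolynomial.eval x (φ j)) h' := by
  obtain ⟨a, ha⟩ := Projectivization.exists_smul_eq_mk_rep Qbar x hx
  have e : (fun j => MvPolynomial.eval (Projectivization.mk Qbar x hx : PSpace n).rep (φ j)) =
      (a ^ d : Qbarˣ) • (fun j => MvPolynomial.eval x (φ j)) := by
    funext j
    rw [← ha, show (a • x : Fin (n + 1) → Qbar) = (a : Qbar) • x from rfl, eval_smul (hF j)]
    rfl
  refine ⟨fun h0 => h ?_, ?_⟩
  · rw [e, h0, smul_zero]
  · rw [Projectivization.mk_eq_mk_iff]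
    exact ⟨a ^ d, e.symm⟩

/-- a representative with a coordinate equal to one -/
lemma exists_normal {n : ℕ} (P : PSpace n) : ∃ (a : Fin (n + 1)) (v : Fin (n + 1) → Qbar)
    (h : v ≠ 0), v a = 1 ∧ Projectivization.mk Qbar v h = P := by
  obtain ⟨a, ha⟩ := Function.ne_iff.mp P.rep_nonzero
  have ha' : P.rep a ≠ 0 := ha
  have hv : (P.rep a)⁻¹ • P.rep ≠ 0 := smul_ne_zero (inv_ne_zero ha') P.rep_nonzero
  refine ⟨a, (P.rep a)⁻¹ • P.rep, hv, by simp [ha'], ?_⟩
  conv_rhs => rw [← P.mk_rep]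
  rw [Projectivization.mk_eq_mk_iff]
  exact ⟨(Units.mk0 _ ha')⁻¹, rfl⟩

/-! ### Noetherian arguments -/

lemma exists_finite_zeros {ι : Type} [Finite ι] (T : Set (MvPolynomial ι Qbar)) :
    ∃ S : Finset (MvPolynomial ι Qbar), (S : Set (MvPolynomial ι Qbar)) ⊆ T ∧
      ∀ v : ι → Qbar, (∀ F ∈ S, MvPolynomial.eval v F = 0) →
        ∀ F ∈ T, MvPolynomial.eval v F = 0 := by
  have hfg : (Ideal.span T).FG := IsNoetherian.noetherian _
  obtain ⟨S, hST, hS⟩ := (Submodule.fg_span_iff_fg_span_finset_subset T).mp hfg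
  refine ⟨S, hST, fun v hv F hF => ?_⟩
  have hle : Ideal.span (S : Set (MvPolynomial ι Qbar)) ≤
      RingHom.ker (MvPolynomial.eval v) := by
    rw [Ideal.span_le]
    intro G hG
    exact hv G hG
  have hF' : F ∈ Ideal.span (S : Set (MvPolynomial ι Qbar)) := by
    have := hS ▸ (Submodule.subset_span hF)
    exact this
  exact hle hF'

/-- a regular map is given by finitely many tuples of forms -/
lemma exists_cover {n m : ℕ} {X : Set (PSpace n)} {Y : Set (PSpace m)} {f : X → Y}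
    (hf : IsRegular f) : ∃ (e : X → ℕ) (G : X → MvPolynomial (Fin (n + 1)) Qbar)
      (φ : X → Fin (m + 1) → MvPolynomial (Fin (n + 1)) Qbar) (d : X → ℕ) (S : Finset X),
      (∀ P, (G P).IsHomogeneous (d P)) ∧ (∀ P j, (φ P j).IsHomogeneous (e P)) ∧
      (∀ P Q : X, MvPolynomial.eval Q.1.rep (G P) ≠ 0 →
        ∃ h : (fun j => MvPolynomial.eval Q.1.rep (φ P j)) ≠ 0,
        (f Q).1 = Projectivization.mk Qbar (fun j => MvPolynomial.eval Q.1.rep (φ P j)) h) ∧
      ∀ Q : X, ∃ P ∈ S, MvPolynomial.eval Q.1.rep (G P) ≠ 0 := by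
  classical
  choose d e G φ hG hφ hGP hfQ using hf
  obtain ⟨S0, hS0, hS⟩ := exists_finite_zeros (Set.range G)
  have hpre : ∀ F ∈ S0, ∃ P : X, G P = F := fun F hF => hS0 hF
  rcases isEmpty_or_nonempty X with hemp | hnemp
  · exact ⟨e, G, φ, d, ∅, hG, hφ, fun P Q h => hfQ P Q h, fun Q => (hemp.false Q).elim⟩
  choose! p hp using hpre
  refine ⟨e, G, φ, d, S0.image p, hG, hφ, fun P Q h => hfQ P Q h, fun Q => ?_⟩
  by_contra hcon
  push Not at hcon
  refine hGP Q (hS Q.1.rep (fun F hF => ?_) (G Q) ⟨Q, rfl⟩)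
  have := hcon (p F) (Finset.mem_image_of_mem p hF)
  rwa [hp F hF] at this

/-- heights grow at most linearly under regular maps -/
theorem regular_bound {n m : ℕ} {X : Set (PSpace n)} {Y : Set (PSpace m)} {f : X → Y}
    (hf : IsRegular f) : ∃ C D : ℝ, 0 ≤ C ∧ 0 ≤ D ∧ ∀ x : X, ht (f x).1 ≤ C * ht x.1 + D := by
  classical
  obtain ⟨e, G, φ, d, S, -, hφ, hfQ, hcov⟩ := exists_cover hf
  choose C0 hC0 using fun P : X => absLogHeight_eval (e P) (φ P) (hφ P)
  refine ⟨∑ P ∈ S, (e P : ℝ), ∑ P ∈ S, |C0 P|, by positivity, by positivity, fun x => ?_⟩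
  obtain ⟨P, hPS, hP⟩ := hcov x
  obtain ⟨h, hx⟩ := hfQ P x hP
  rw [hx, ht_mk]
  have h1 := hC0 P x.1.rep
  have h2 : (e P : ℝ) ≤ ∑ P ∈ S, (e P : ℝ) :=
    Finset.single_le_sum (f := fun P => (e P : ℝ)) (fun P _ => Nat.cast_nonneg _) hPS
  have h3 : |C0 P| ≤ ∑ P ∈ S, |C0 P| :=
    Finset.single_le_sum (f := fun P => |C0 P|) (fun P _ => abs_nonneg _) hPS
  have h4 : (e P : ℝ) * absLogHeight x.1.rep ≤ (∑ P ∈ S, (e P : ℝ)) * ht x.1 :=
    mul_le_mul_of_nonneg_right h2 (absLogHeight_nonneg _)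
  have h5 := le_abs_self (C0 P)
  linarith

/-! ### Homogenisation -/

lemma exists_homog {τ : Type} [Fintype τ] [DecidableEq τ] (p : MvPolynomial τ Qbar) (M : ℕ)
    (hM : p.totalDegree ≤ M) (b : τ) :
    ∃ q : MvPolynomial τ Qbar, q.IsHomogeneous M ∧
      ∀ w : τ → Qbar, w b = 1 → MvPolynomial.eval w q = MvPolynomial.eval w p := by
  refine ⟨∑ s ∈ p.support, MvPolynomial.monomial (s + Finsupp.single b (M - s.degree))
    (p.coeff s), ?_, fun w hw => ?_⟩
  · apply MvPolynomial.IsHomogeneous.sum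
    intro s hs
    apply MvPolynomial.isHomogeneous_monomial
    have h1 : s.degree ≤ M := by
      have := MvPolynomial.le_totalDegree hs
      rw [Finsupp.degree]
      exact this.trans hM
    rw [map_add]
    simp only [Finsupp.degree_single]
    omega
  · rw [map_sum, MvPolynomial.eval_eq]
    refine Finset.sum_congr rfl fun s hs => ?_
    rw [MvPolynomial.eval_monomial, Finsupp.prod_add_index', Finsupp.prod_single_index, hw,
      one_pow, mul_one]
    · rfl
    · exact pow_zero _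
    · intro i; exact pow_zero _
    · intro i m1 m2; exact pow_add _ _ _

/-- height of a root in terms of the coefficients -/
lemma root_bound {τ : Type} [Fintype τ] [DecidableEq τ] (N : ℕ)
    (c : Fin (N + 1) → MvPolynomial τ Qbar) (b : τ) :
    ∃ A B : ℝ, 0 ≤ A ∧ 0 ≤ B ∧ ∀ (w : τ → Qbar) (z : Qbar), w b = 1 →
      (∃ j, MvPolynomial.eval w (c j) ≠ 0) →
      ∑ j, MvPolynomial.eval w (c j) * z ^ (j : ℕ) = 0 →
      absLogHeight ![1, z] ≤ A * absLogHeight w + B := by
  classical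
  set M := Finset.univ.sup fun j => (c j).totalDegree with hM
  have hM' : ∀ j, (c j).totalDegree ≤ M := fun j =>
    Finset.le_sup (f := fun j => (c j).totalDegree) (Finset.mem_univ j)
  choose q hq hqe using fun j => exists_homog (c j) M (hM' j) b
  obtain ⟨C1, hC1⟩ := absLogHeight_eval M q hq
  obtain ⟨C2, hC2⟩ := absLogHeight_root N
  refine ⟨M, |C1| + |C2|, by positivity, by positivity, fun w z hw hne hz => ?_⟩
  let P : Polynomial Qbar :=
    ∑ j : Fin (N + 1), Polynomial.C (MvPolynomial.eval w (c j)) * Polynomial.X ^ (j : ℕ)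
  have hcoeff : ∀ i : Fin (N + 1), P.coeff i = MvPolynomial.eval w (c i) := by
    intro i
    simp only [P, Polynomial.finsetSum_coeff, Polynomial.coeff_C_mul, Polynomial.coeff_X_pow]
    rw [Finset.sum_eq_single i]
    · simp
    · intro j _ hj
      rw [if_neg, mul_zero]
      intro h
      exact hj (Fin.ext h.symm)
    · intro h
      exact absurd (Finset.mem_univ _) h
  have hP0 : P ≠ 0 := by
    obtain ⟨j, hj⟩ := hne
    intro h
    apply hj
    rw [← hcoeff, h, Polynomial.coeff_zero]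
  have hdeg : P.natDegree ≤ N := by
    refine Polynomial.natDegree_sum_le_of_forall_le _ _ fun j _ => ?_
    refine (Polynomial.natDegree_C_mul_X_pow_le _ _).trans ?_
    omega
  have heval : P.eval z = 0 := by
    simp only [P, Polynomial.eval_finsetSum, Polynomial.eval_mul, Polynomial.eval_C,
      Polynomial.eval_pow, Polynomial.eval_X]
    exact hz
  have h1 := hC2 P z hP0 hdeg heval
  have e : Pool.Agent.Helper259.HtPoly.cv N P = fun j => MvPolynomial.eval w (q j) := by
    funext j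
    rw [hqe j w hw]
    exact hcoeff j
  rw [e] at h1
  have h2 := hC1 w
  have h3 := le_abs_self C1
  have h4 := le_abs_self C2
  linarith

lemma const_of_finite (φ : Ultrafilter ℕ) {α : Type*} [Finite α] (g : ℕ → α) :
    ∃ c, ∀ᶠ n in (φ : Filter ℕ), g n = c := by
  have h : (⋃ c ∈ (Set.univ : Set α), {n | g n = c}) ∈ φ := by
    have : (⋃ c ∈ (Set.univ : Set α), {n | g n = c}) = Set.univ := by
      ext n
      simp
    rw [this]
    exact Filter.univ_mem
  rw [Ultrafilter.finite_biUnion_mem_iff Set.finite_univ] at h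
  obtain ⟨c, -, hc⟩ := h
  exact ⟨c, hc⟩

/-! ### The main estimate -/

/-- Over the algebraic numbers, every value of a regular map has a preimage whose height is
bounded linearly in terms of the height of the value. -/
theorem exists_small_preimage {n m : ℕ} {X : Set (PSpace n)} (hX : IsQuasiProjective X)
    {Y : Set (PSpace m)} {f : X → Y} (hf : IsRegular f) :
    ∃ C : ℝ, ∀ x : X, ∃ x' : X, f x' = f x ∧ ht x'.1 ≤ C * ht (f x).1 + C := by
  classical
  by_contra hcon
  push Not at hcon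
  -- bad points
  choose xs hxs using fun k : ℕ => hcon (k : ℝ)
  obtain ⟨e, G, φ, d, S, hG, hφ, hfQ, hcov⟩ := exists_cover hf
  obtain ⟨Z, W, ⟨TZ, hTZ, rfl⟩, ⟨TW, hTW, rfl⟩, hXeq⟩ := hX
  have hmemX : ∀ p : PSpace n, p ∈ X ↔ (∀ F ∈ TZ, MvPolynomial.eval p.rep F = 0) ∧
      ¬ (∀ F ∈ TW, MvPolynomial.eval p.rep F = 0) := by
    intro p
    rw [hXeq]
    rfl
  obtain ⟨SZ, hSZ, hSZ'⟩ := exists_finite_zeros TZ
  -- local data along the sequence
  choose a v hv0 hva hmk using fun k => exists_normal (xs k).1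
  choose b w hw0 hwb hmkw using fun k => exists_normal (f (xs k)).1
  choose P hPS hP using fun k => hcov (xs k)
  obtain ⟨SW, hSW, hSW'⟩ := exists_finite_zeros TW
  have hH : ∀ k, ∃ H : MvPolynomial (Fin (n + 1)) Qbar, H ∈ SW ∧
      MvPolynomial.eval (xs k).1.rep H ≠ 0 := by
    intro k
    have hx := ((hmemX _).mp (xs k).2).2
    by_contra hc
    push Not at hc
    exact hx (hSW' _ hc)
  choose H hHS hH using hH
  let U : Ultrafilter ℕ := Filter.hyperfilter ℕ
  -- make the discrete data constant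
  obtain ⟨⟨a0, b0, P0, H0⟩, hconst⟩ := const_of_finite U
    (fun k => (a k, b k, (⟨P k, hPS k⟩ : S), (⟨H k, hHS k⟩ : SW)))
  obtain ⟨P0, hP0⟩ := P0
  obtain ⟨H0, hH0⟩ := H0
  simp only [Prod.mk.injEq, Subtype.mk.injEq] at hconst
  obtain ⟨eH, hHhom⟩ := hTW H0 (hSW hH0)
  -- facts at the typical index
  have hfacts : ∀ᶠ k in (U : Filter ℕ), v k a0 = 1 ∧ w k b0 = 1 ∧
      MvPolynomial.eval (v k) H0 ≠ 0 ∧ MvPolynomial.eval (v k) (G P0) ≠ 0 ∧
      MvPolynomial.eval (v k) (φ P0 b0) ≠ 0 ∧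
      ∀ j, MvPolynomial.eval (v k) (φ P0 j) = MvPolynomial.eval (v k) (φ P0 b0) * w k j := by
    filter_upwards [hconst] with k hk
    obtain ⟨h1, h2, h3, h4⟩ := hk
    have hGk : MvPolynomial.eval (v k) (G P0) ≠ 0 := by
      have := hP k
      rw [h3, ← hmk k] at this
      exact fun h0 => this ((eval_mk (hG P0) _ (hv0 k)).mpr h0)
    have hHk : MvPolynomial.eval (v k) H0 ≠ 0 := by
      have := hH k
      rw [h4, ← hmk k] at this
      exact fun h0 => this ((eval_mk hHhom _ (hv0 k)).mpr h0)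
    have hwk : w k b0 = 1 := by rw [← h2]; exact hwb k
    obtain ⟨hne, hfx⟩ := hfQ P0 (xs k) (by have := hP k; rwa [h3] at this)
    have hx : (xs k).1 = Projectivization.mk Qbar (v k) (hv0 k) := (hmk k).symm
    obtain ⟨hne', hfx'⟩ : ∃ h' : (fun j => MvPolynomial.eval (v k) (φ P0 j)) ≠ 0,
        (f (xs k)).1 = Projectivization.mk Qbar (fun j => MvPolynomial.eval (v k) (φ P0 j)) h' := by
      rw [hfx]
      generalize hq : (xs k).1 = q at hne hx ⊢
      subst hx
      exact mk_eval (hφ P0) _ (hv0 k) hne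
    rw [← hmkw k, Projectivization.mk_eq_mk_iff] at hfx'
    obtain ⟨c, hc⟩ := hfx'
    have hcj : ∀ j, (c : Qbar) * MvPolynomial.eval (v k) (φ P0 j) = w k j := fun j =>
      congrFun hc j
    have hb0 : (c : Qbar) * MvPolynomial.eval (v k) (φ P0 b0) = 1 := by rw [hcj, hwk]
    have hbne : MvPolynomial.eval (v k) (φ P0 b0) ≠ 0 := by
      intro h0
      rw [h0, mul_zero] at hb0
      exact zero_ne_one hb0
    refine ⟨by rw [← h1]; exact hva k, hwk, hHk, hGk, hbne, fun j => ?_⟩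
    rw [← hcj j, ← mul_assoc, mul_comm (MvPolynomial.eval (v k) (φ P0 b0)) (c : Qbar), hb0, one_mul]
  -- the system of equations
  let ren : MvPolynomial (Fin (n + 1)) Qbar → MvPolynomial (Option (Fin (n + 1)) ⊕ Fin (m + 1)) Qbar :=
    MvPolynomial.rename (fun i => Sum.inl (some i))
  have hren : ∀ (x : Option (Fin (n + 1)) → Qbar) (y : Fin (m + 1) → Qbar)
      (F : MvPolynomial (Fin (n + 1)) Qbar),
      MvPolynomial.eval (Sum.elim x y) (ren F) = MvPolynomial.eval (fun i => x (some i)) F := by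
    intro x y F
    simp only [ren, MvPolynomial.eval_rename]
    rfl
  let E1 : Set (MvPolynomial (Option (Fin (n + 1)) ⊕ Fin (m + 1)) Qbar) := ren '' (SZ : Set _)
  let E2 : MvPolynomial (Option (Fin (n + 1)) ⊕ Fin (m + 1)) Qbar :=
    MvPolynomial.X (Sum.inl (some a0)) - 1
  let E3 : MvPolynomial (Option (Fin (n + 1)) ⊕ Fin (m + 1)) Qbar :=
    MvPolynomial.X (Sum.inl none) * (ren H0 * ren (G P0) * ren (φ P0 b0)) - 1
  let E4 : Fin (m + 1) → MvPolynomial (Option (Fin (n + 1)) ⊕ Fin (m + 1)) Qbar := fun j =>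
    ren (φ P0 j) - ren (φ P0 b0) * MvPolynomial.X (Sum.inr j)
  let Eqs : Set (MvPolynomial (Option (Fin (n + 1)) ⊕ Fin (m + 1)) Qbar) :=
    E1 ∪ {E2, E3} ∪ Set.range E4
  have hfin : Eqs.Finite :=
    ((SZ.finite_toSet.image ren).union (Set.toFinite _)).union (Set.finite_range _)
  let vv : ℕ → Option (Fin (n + 1)) → Qbar := fun k i =>
    i.elim ((MvPolynomial.eval (v k) H0 * MvPolynomial.eval (v k) (G P0) *
      MvPolynomial.eval (v k) (φ P0 b0))⁻¹) (v k)
  have hvv : ∀ k, (fun i => vv k (some i)) = v k := fun k => rfl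
  have hEqs : ∀ p ∈ Eqs, ∀ᶠ k in (U : Filter ℕ),
      MvPolynomial.eval (Sum.elim (vv k) (w k)) p = 0 := by
    intro p hp
    filter_upwards [hfacts] with k hk
    obtain ⟨h1, h2, h3, h4, h5, h6⟩ := hk
    rcases hp with (hp | hp) | hp
    · obtain ⟨F, hF, rfl⟩ := hp
      rw [hren, hvv]
      have hxZ := ((hmemX _).mp (xs k).2).1 F (hSZ hF)
      obtain ⟨eF, heF⟩ := hTZ F (hSZ hF)
      rw [← hmk k] at hxZ
      exact (eval_mk heF _ (hv0 k)).mp hxZ
    · rcases hp with hp | hp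
      · rw [hp]
        simp only [E2, map_sub, MvPolynomial.eval_X, map_one, Sum.elim_inl]
        show v k a0 - 1 = 0
        rw [h1, sub_self]
      · rw [Set.mem_singleton_iff.mp hp]
        simp only [E3, map_sub, map_mul, MvPolynomial.eval_X, map_one, Sum.elim_inl, hren, hvv]
        show (MvPolynomial.eval (v k) H0 * MvPolynomial.eval (v k) (G P0) *
          MvPolynomial.eval (v k) (φ P0 b0))⁻¹ * (MvPolynomial.eval (v k) H0 *
          MvPolynomial.eval (v k) (G P0) * MvPolynomial.eval (v k) (φ P0 b0)) - 1 = 0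
        rw [inv_mul_cancel₀ (mul_ne_zero (mul_ne_zero h3 h4) h5), sub_self]
    · obtain ⟨j, rfl⟩ := hp
      simp only [E4, map_sub, map_mul, MvPolynomial.eval_X, Sum.elim_inr, hren, hvv]
      rw [h6 j, sub_self]
  obtain ⟨z, hz, hzalg⟩ := Pool.Agent.TH950.Descent.descent U w vv Eqs hEqs
  -- height bounds for the coordinates
  have hbd : ∀ i : Fin (n + 1), ∃ A B : ℝ, 0 ≤ A ∧ 0 ≤ B ∧ ∀ᶠ k in (U : Filter ℕ),
      absLogHeight ![1, z k (some i)] ≤ A * absLogHeight (w k) + B := by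
    intro i
    obtain ⟨N, c, hc, j, hj⟩ := hzalg (some i)
    obtain ⟨A, B, hA, hB, hAB⟩ := root_bound N c b0
    refine ⟨A, B, hA, hB, ?_⟩
    filter_upwards [hc, hj, hfacts] with k h1 h2 h3
    exact hAB (w k) (z k (some i)) h3.2.1 ⟨j, h2⟩ h1
  choose A B hA hB hAB using hbd
  have hall : ∀ᶠ k in (U : Filter ℕ), ∀ p ∈ Eqs,
      MvPolynomial.eval (Sum.elim (z k) (w k)) p = 0 := by
    rw [Filter.eventually_all_finite hfin]
    exact hz
  have hbig : ∀ᶠ k : ℕ in (U : Filter ℕ), (∑ i, A i) + (∑ i, B i) ≤ (k : ℝ) := by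
    have h1 : ∀ᶠ k : ℕ in Filter.atTop, (∑ i, A i) + (∑ i, B i) ≤ (k : ℝ) := by
      obtain ⟨K, hK⟩ := exists_nat_ge ((∑ i, A i) + (∑ i, B i))
      filter_upwards [Filter.eventually_ge_atTop K] with k hk
      exact hK.trans (by exact_mod_cast hk)
    exact Nat.hyperfilter_le_atTop h1
  have hAB' : ∀ᶠ k in (U : Filter ℕ), ∀ i,
      absLogHeight ![1, z k (some i)] ≤ A i * absLogHeight (w k) + B i :=
    Filter.eventually_all.mpr hAB
  obtain ⟨k, hk1, hk2, hk3, hk4⟩ :=
    (hfacts.and (hall.and (hbig.and hAB'))).exists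
  obtain ⟨h1, h2, h3, h4, h5, h6⟩ := hk1
  -- the new point
  let y : Fin (n + 1) → Qbar := fun i => z k (some i)
  have hya : y a0 = 1 := by
    have := hk2 E2 (Or.inl (Or.inr (Or.inl rfl)))
    simp only [E2, map_sub, MvPolynomial.eval_X, map_one, Sum.elim_inl] at this
    exact sub_eq_zero.mp this
  have hy0 : y ≠ 0 := by
    intro h0
    have := congrFun h0 a0
    rw [hya] at this
    exact one_ne_zero this
  have hprod : z k none * (MvPolynomial.eval y H0 * MvPolynomial.eval y (G P0) *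
      MvPolynomial.eval y (φ P0 b0)) = 1 := by
    have := hk2 E3 (Or.inl (Or.inr (Or.inr rfl)))
    simp only [E3, map_sub, map_mul, MvPolynomial.eval_X, map_one, Sum.elim_inl, hren] at this
    exact sub_eq_zero.mp this
  have hprod' : MvPolynomial.eval y H0 * MvPolynomial.eval y (G P0) *
      MvPolynomial.eval y (φ P0 b0) ≠ 0 := by
    intro h0
    rw [h0, mul_zero] at hprod
    exact zero_ne_one hprod
  have hyH : MvPolynomial.eval y H0 ≠ 0 := left_ne_zero_of_mul (left_ne_zero_of_mul hprod')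
  have hyG : MvPolynomial.eval y (G P0) ≠ 0 := right_ne_zero_of_mul (left_ne_zero_of_mul hprod')
  have hyb : MvPolynomial.eval y (φ P0 b0) ≠ 0 := right_ne_zero_of_mul hprod'
  have hyj : ∀ j, MvPolynomial.eval y (φ P0 j) = MvPolynomial.eval y (φ P0 b0) * w k j := by
    intro j
    have := hk2 (E4 j) (Or.inr ⟨j, rfl⟩)
    simp only [E4, map_sub, map_mul, MvPolynomial.eval_X, Sum.elim_inr, hren] at this
    exact sub_eq_zero.mp this
  have hyX : (Projectivization.mk Qbar y hy0 : PSpace n) ∈ X := by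
    rw [hmemX]
    constructor
    · intro F hF
      obtain ⟨eF, heF⟩ := hTZ F hF
      rw [eval_mk heF]
      refine hSZ' y (fun F' hF' => ?_) F hF
      have := hk2 (ren F') (Or.inl (Or.inl ⟨F', hF', rfl⟩))
      rwa [hren] at this
    · intro hall0
      have := hall0 H0 (hSW hH0)
      rw [eval_mk hHhom] at this
      exact hyH this
  let x' : X := ⟨Projectivization.mk Qbar y hy0, hyX⟩
  have hfx' : f x' = f (xs k) := by
    apply Subtype.ext
    obtain ⟨hne, hfx⟩ := hfQ P0 x' (fun h0 => hyG ((eval_mk (hG P0) y hy0).mp h0))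
    obtain ⟨hne', hfx2⟩ := mk_eval (hφ P0) y hy0 hne
    rw [hfx, hfx2, ← hmkw k, Projectivization.mk_eq_mk_iff]
    refine ⟨Units.mk0 _ hyb, ?_⟩
    funext j
    exact (hyj j).symm
  have hlow := hxs k x' hfx'
  have hup : ht x'.1 ≤ (∑ i, A i) * absLogHeight (w k) + ∑ i, B i := by
    rw [ht_mk]
    refine (absLogHeight_le_sum y).trans ?_
    rw [Finset.sum_mul, ← Finset.sum_add_distrib]
    exact Finset.sum_le_sum fun i _ => hk4 i
  have hw : ht (f (xs k)).1 = absLogHeight (w k) := by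
    rw [← hmkw k, ht_mk]
  rw [hw] at hlow
  have hwnn := absLogHeight_nonneg (w k)
  have hAs : 0 ≤ ∑ i, A i := Finset.sum_nonneg fun i _ => hA i
  have hBs : 0 ≤ ∑ i, B i := Finset.sum_nonneg fun i _ => hB i
  have h7 : (∑ i, A i) * absLogHeight (w k) ≤ (k : ℝ) * absLogHeight (w k) :=
    mul_le_mul_of_nonneg_right (by linarith) hwnn
  linarith

end Pool.Agent.TH950.Proj
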